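import Pool.Agent.W606.PS.Stm

/-!
# Project PS: two of `k + 1` disjoint connected sets are separated by `k` vertices
-/

set_option autoImplicit false

open Set Relation

namespace Pool.Agent.W193.PS

open Pool.Agent.W606.PS

/-- a walk from `X` to its complement has an edge leaving `X` -/
theorem reach_cross {V : Type} {G : SimpleGraph V} {a b : V} (h : G.Reachable a b) (X : Set V)
    (ha : a ∈ X) (hb : b ∉ X) : ∃ x y, G.Adj x y ∧ x ∈ X ∧ y ∉ X := by
  obtain ⟨w⟩ := h
  induction w with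
  | nil => exact absurd ha hb
  | @cons u v w' huv _ ih =>
    by_cases hv : v ∈ X
    · exact ih hv hb
    · exact ⟨u, v, huv, ha, hv⟩

theorem induce_cross {V : Type} {G : SimpleGraph V} {N : Set V} (h : (G.induce N).Connected)
    (X : Set V) {a b : V} (ha : a ∈ N) (hb : b ∈ N) (haX : a ∈ X) (hbX : b ∉ X) :
    ∃ x y, G.Adj x y ∧ x ∈ N ∧ y ∈ N ∧ x ∈ X ∧ y ∉ X := by
  obtain ⟨x, y, hxy, hx, hy⟩ := reach_cross (h.preconnected ⟨a, ha⟩ ⟨b, hb⟩)
    {z : N | (z : V) ∈ X} haX hbX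
  exact ⟨x, y, hxy, x.2, y.2, hx, hy⟩

section

variable {A : Type} {G₀ : SimpleGraph A} {m : ℕ} {T : SimpleGraph (Fin m)} {B : Fin m → Finset A}

/-- the set of nodes of a connected set has an edge leaving `X` -/
theorem con_cross (hcov : ∀ u v, G₀.Adj u v → ∃ t, u ∈ B t ∧ v ∈ B t)
    (hconn : ∀ v, (T.induce {t | v ∈ B t}).Connected) {P : Set A} (hP : Con G₀ P)
    (X : Set (Fin m)) {u v : A} (hu : u ∈ P) (hv : v ∈ P) {s s' : Fin m} (hs : u ∈ B s)
    (hs' : v ∈ B s') (hsX : s ∈ X) (hsX' : s' ∉ X) :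
    ∃ x y, T.Adj x y ∧ (∃ w ∈ P, w ∈ B x ∧ w ∈ B y) ∧ x ∈ X ∧ y ∉ X := by
  by_contra hcon
  -- no vertex of `P` has nodes on both sides
  have h1 : ∀ w ∈ P, ∀ a b, w ∈ B a → w ∈ B b → a ∈ X → b ∉ X → False := by
    intro w hw a b ha hb haX hbX
    obtain ⟨x, y, hxy, hx, hy, hxX, hyX⟩ := induce_cross (hconn w) X (a := a) (b := b) ha hb haX hbX
    exact hcon ⟨x, y, hxy, ⟨w, hw, hx, hy⟩, hxX, hyX⟩
  have h2 : u ∈ {w | ∀ a, w ∈ B a → a ∈ X} := by
    intro a ha
    by_contra haX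
    exact h1 u hu s a hs ha hsX haX
  have h3 : v ∉ {w | ∀ a, w ∈ B a → a ∈ X} := fun h => hsX' (h s' hs')
  obtain ⟨a, b, ha, hb, haA, hbA, hab⟩ := hP.exit hu h2 hv h3
  obtain ⟨c, hac, hbc⟩ := hcov a b hab
  apply hbA
  intro d hd
  by_contra hdX
  exact h1 b hb c d hbc hd (haA c hac) hdX

/-- the separator given by an edge of the tree -/
theorem sep (hcov : ∀ u v, G₀.Adj u v → ∃ t, u ∈ B t ∧ v ∈ B t)
    (hconn : ∀ v, (T.induce {t | v ∈ B t}).Connected) (X : Set (Fin m)) (t t' : Fin m)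
    (hX : ∀ a b, T.Adj a b → a ∈ X → b ∉ X → a = t ∧ b = t') (ht : t ∈ X) (ht' : t' ∉ X)
    (P P' : Set A) (hP : ∀ v ∈ P, ∀ s, v ∈ B s → s ∈ X) (hP' : ∀ v ∈ P', ∀ s, v ∈ B s → s ∉ X)
    (hPc : Con G₀ P') (S : Finset A) (hS : ∀ v, v ∈ S ↔ v ∈ B t ∧ v ∈ B t') :
    Disjoint (S : Set A) P ∧ Disjoint (S : Set A) P' ∧ ∃ R : Set A, Con G₀ R ∧ P' ⊆ R ∧
      Disjoint R P ∧ Disjoint R (S : Set A) ∧ ∀ u ∈ R, ∀ v, G₀.Adj u v → v ∈ R ∨ v ∈ S := by
  have hne : ∀ v, ∃ s, v ∈ B s := fun v => by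
    obtain ⟨s⟩ := (hconn v).nonempty
    exact ⟨s.1, s.2⟩
  have h1 : Disjoint (S : Set A) P := by
    rw [Set.disjoint_left]
    intro v hv hvP
    exact ht' (hP v hvP t' ((hS v).1 hv).2)
  have h2 : Disjoint (S : Set A) P' := by
    rw [Set.disjoint_left]
    intro v hv hvP
    exact hP' v hvP t ((hS v).1 hv).1 ht
  refine ⟨h1, h2, ?_⟩
  set R0 : Set A := {v | (∃ s, s ∉ X ∧ v ∈ B s) ∧ v ∉ S} with hR0
  have hPR : P' ⊆ R0 := by
    intro v hv
    obtain ⟨s, hs⟩ := hne v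
    exact ⟨⟨s, hP' v hv s hs, hs⟩, fun h => Set.disjoint_left.1 h2 h hv⟩
  -- a vertex of `R0` has no node in `X`
  have hside : ∀ v ∈ R0, ∀ s, v ∈ B s → s ∉ X := by
    rintro v ⟨⟨s, hsX, hs⟩, hvS⟩ s' hs' hs'X
    obtain ⟨x, y, hxy, hx, hy, hxX, hyX⟩ := induce_cross (hconn v) X (a := s') (b := s) hs' hs hs'X
      hsX
    obtain ⟨rfl, rfl⟩ := hX x y hxy hxX hyX
    exact hvS ((hS v).2 ⟨hx, hy⟩)
  obtain ⟨v₀, hv₀⟩ := hPc.1
  obtain ⟨R, hR, hvR⟩ := exists_comp G₀ (hPR hv₀)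
  refine ⟨R, hR.2.1, hR.sub_of_con hPc hPR ⟨v₀, hv₀, hvR⟩, ?_, ?_, ?_⟩
  · rw [Set.disjoint_left]
    intro v hv hvP
    obtain ⟨s, hs⟩ := hne v
    exact hside v (hR.1 hv) s hs (hP v hvP s hs)
  · rw [Set.disjoint_left]
    intro v hv hvS
    exact (hR.1 hv).2 hvS
  · intro u hu v huv
    by_cases hvS : v ∈ S
    · exact Or.inr hvS
    · left
      obtain ⟨s, hus, hvs⟩ := hcov u v huv
      exact hR.2.2 u hu v ⟨⟨s, hside u (hR.1 hu) s hus, hvs⟩, hvS⟩ huv

end

/-- in a connected graph every vertex different from the root has a lower neighbour -/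
theorem exists_lower {V : Type} {G : SimpleGraph V} (hG : G.Connected) (r s : V) (h : s ≠ r) :
    ∃ s', G.Adj s s' ∧ G.dist r s' + 1 = G.dist r s := by
  obtain ⟨w, hw⟩ := (hG.preconnected s r).exists_walk_length_eq_dist
  cases w with
  | nil => exact absurd rfl h
  | @cons _ s' _ hadj w' =>
    refine ⟨s', hadj, ?_⟩
    rw [SimpleGraph.dist_comm] at hw
    simp only [SimpleGraph.Walk.length_cons] at hw
    have h1 : G.dist s' r ≤ w'.length := SimpleGraph.dist_le w'
    have h2 : G.dist r s ≤ G.dist r s' + G.dist s' s := hG.dist_triangle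
    have h3 : G.dist s' s = 1 := SimpleGraph.dist_eq_one_iff_adj.2 hadj.symm
    rw [SimpleGraph.dist_comm] at h1
    omega

theorem main : S_HELLY := by
  classical
  rintro A G₀ k ⟨m, T, B, hT, hcov, hconn, hw⟩ P hP hdis
  obtain ⟨r⟩ := hT.connected.nonempty
  have hne : ∀ v, ∃ s, v ∈ B s := fun v => by
    obtain ⟨s⟩ := (hconn v).nonempty
    exact ⟨s.1, s.2⟩
  -- the nodes of `P i`
  set N : Fin (k + 1) → Set (Fin m) := fun i => {t | ∃ v ∈ P i, v ∈ B t} with hN
  have hNne : ∀ i, (N i).Nonempty := by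
    intro i
    obtain ⟨v, hv⟩ := (hP i).1
    obtain ⟨s, hs⟩ := hne v
    exact ⟨s, v, hv, hs⟩
  have htop : ∀ i, ∃ t ∈ N i, ∀ s ∈ N i, T.dist r t ≤ T.dist r s := by
    intro i
    obtain ⟨t, ht, hmin⟩ := Set.exists_min_image (N i) (fun s => T.dist r s) (Set.toFinite _)
      (hNne i)
    exact ⟨t, ht, hmin⟩
  choose top htopN htopmin using htop
  obtain ⟨i₀, -, hmax⟩ := Finset.exists_max_image (Finset.univ : Finset (Fin (k + 1)))
    (fun i => T.dist r (top i)) ⟨0, Finset.mem_univ _⟩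
  set t := top i₀ with htdef
  have htN : t ∈ N i₀ := htopN i₀
  have htmin : ∀ s ∈ N i₀, T.dist r t ≤ T.dist r s := htopmin i₀
  clear_value t
  -- some `N j` does not contain `t`
  have hj : ∃ j, t ∉ N j := by
    by_contra hcon
    push Not at hcon
    choose v hv hvB using hcon
    have hinj : Function.Injective v := by
      intro i j hij
      by_contra hne'
      have := Set.disjoint_left.1 (hdis i j hne') (hv i)
      rw [hij] at this
      exact this (hv j)
    have h1 := Finset.card_le_card_of_injOn (s := (Finset.univ : Finset (Fin (k + 1)))) (t := B t) v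
      (fun i _ => hvB i) (fun i _ j _ h => hinj h)
    rw [Finset.card_univ, Fintype.card_fin] at h1
    have := hw t
    omega
  obtain ⟨j₀, hj₀⟩ := hj
  have hij : i₀ ≠ j₀ := by
    rintro rfl
    exact hj₀ htN
  have htr : t ≠ r := by
    intro h
    have h1 := hmax j₀ (Finset.mem_univ _)
    rw [h, SimpleGraph.dist_self] at h1
    have h2 : T.dist r (top j₀) = 0 := Nat.le_zero.1 h1
    have h3 : r = top j₀ := by
      rcases SimpleGraph.dist_eq_zero_iff_eq_or_not_reachable.1 h2 with h4 | h4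
      · exact h4
      · exact absurd (hT.connected.preconnected r _) h4
    apply hj₀
    rw [h, h3]
    exact htopN j₀
  obtain ⟨t', htt', hdt⟩ := exists_lower hT.connected r t htr
  have hbr : ¬ (T.deleteEdges {s(t, t')}).Reachable t t' := by
    have h1 := SimpleGraph.isAcyclic_iff_forall_isBridge.1 hT.isAcyclic
      (e := s(t, t')) htt'
    exact SimpleGraph.isBridge_iff.1 h1
  -- low nodes are on the side of the root
  have hlow : ∀ n : ℕ, ∀ s, T.dist r s = n → s ≠ t → T.dist r s ≤ T.dist r t →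
      (T.deleteEdges {s(t, t')}).Reachable r s := by
    intro n
    induction n with
    | zero =>
      intro s hs _ _
      have h3 : r = s := by
        rcases SimpleGraph.dist_eq_zero_iff_eq_or_not_reachable.1 hs with h4 | h4
        · exact h4
        · exact absurd (hT.connected.preconnected r _) h4
      rw [h3]
    | succ n ih =>
      intro s hs hst hle
      have hsr : s ≠ r := by
        rintro rfl
        rw [SimpleGraph.dist_self] at hs
        omega
      obtain ⟨s', hss', hd⟩ := exists_lower hT.connected r s hsr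
      have hs't : s' ≠ t := by
        rintro rfl
        omega
      have h1 := ih s' (by omega) hs't (by omega)
      refine h1.trans (SimpleGraph.Adj.reachable ?_)
      rw [SimpleGraph.deleteEdges_adj]
      refine ⟨hss'.symm, ?_⟩
      rw [Set.mem_singleton_iff, Sym2.eq_iff]
      rintro (⟨h2, -⟩ | ⟨-, h2⟩)
      · exact hs't h2
      · exact hst h2
  have hrt' := hlow _ t' rfl (fun h => htt'.ne h.symm) (by omega)
  set X : Set (Fin m) := {s | (T.deleteEdges {s(t, t')}).Reachable t s} with hXdef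
  have htX : t ∈ X := SimpleGraph.Reachable.refl _
  have ht'X : t' ∉ X := hbr
  have hXcross : ∀ a b, T.Adj a b → a ∈ X → b ∉ X → a = t ∧ b = t' := by
    intro a b hab ha hb
    by_contra hne'
    apply hb
    refine SimpleGraph.Reachable.trans ha (SimpleGraph.Adj.reachable ?_)
    rw [SimpleGraph.deleteEdges_adj]
    refine ⟨hab, ?_⟩
    rw [Set.mem_singleton_iff, Sym2.eq_iff]
    rintro (h2 | ⟨h2, -⟩)
    · exact hne' h2
    · rw [h2] at ha
      exact ht'X ha
  -- `P i₀` is on the side `X`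
  have hi : ∀ v ∈ P i₀, ∀ s, v ∈ B s → s ∈ X := by
    intro v hv s hs
    by_contra hsX
    obtain ⟨u, hu, hut⟩ := htN
    obtain ⟨x, y, hxy, ⟨w, hw1, hw2, hw3⟩, hxX, hyX⟩ := con_cross hcov hconn (hP i₀) X hu hv hut hs
      htX hsX
    obtain ⟨rfl, rfl⟩ := hXcross x y hxy hxX hyX
    have := htmin y ⟨w, hw1, hw3⟩
    omega
  -- `P j₀` is on the other side
  have hjj : ∀ v ∈ P j₀, ∀ s, v ∈ B s → s ∉ X := by
    intro v hv s hs hsX
    obtain ⟨u, hu, hut⟩ := htopN j₀
    by_cases htopX : top j₀ ∈ X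
    · have hne' : top j₀ ≠ t := by
        intro h
        apply hj₀
        rw [← h]
        exact htopN j₀
      have h1 := hlow _ (top j₀) rfl hne' (hmax j₀ (Finset.mem_univ _))
      exact hbr (SimpleGraph.Reachable.trans htopX (h1.symm.trans hrt'))
    · obtain ⟨x, y, hxy, ⟨w, hw1, hw2, hw3⟩, hxX, hyX⟩ := con_cross hcov hconn (hP j₀) X hv hu hs hut
        hsX htopX
      obtain ⟨rfl, rfl⟩ := hXcross x y hxy hxX hyX
      exact hj₀ ⟨w, hw1, hw2⟩
  have hcard : (B t ∩ B t').card ≤ k := (Finset.card_le_card Finset.inter_subset_left).trans (hw t)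
  rcases lt_or_gt_of_ne hij with hlt | hlt
  · obtain ⟨h1, h2, R, h3, h4, h5, h6, h7⟩ := sep hcov hconn X t t' hXcross htX ht'X (P i₀) (P j₀)
      hi hjj (hP j₀) (B t ∩ B t') (fun v => Finset.mem_inter)
    exact ⟨i₀, j₀, hlt, B t ∩ B t', R, hcard, h1, h2, h3, h4, h5, h6, h7⟩
  · obtain ⟨h1, h2, R, h3, h4, h5, h6, h7⟩ := sep hcov hconn Xᶜ t' t
      (fun a b hab ha hb => by
        rw [Set.mem_compl_iff, not_not] at hb
        exact (hXcross b a hab.symm hb ha).symm)
      ht'X (by rw [Set.mem_compl_iff, not_not]; exact htX) (P j₀) (P i₀)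
      hjj (fun v hv s hs => by rw [Set.mem_compl_iff, not_not]; exact hi v hv s hs) (hP i₀)
      (B t ∩ B t') (fun v => by rw [Finset.mem_inter, and_comm])
    exact ⟨j₀, i₀, hlt, B t ∩ B t', R, hcard, h1, h2, h3, h4, h5, h6, h7⟩

end Pool.Agent.W193.PS
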